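import Pool.Agent.H83.FS.Stm

/-! Step IaA of the proof on friends-and-strangers graphs of complete bipartite graphs. -/

set_option autoImplicit false

namespace Pool.Agent.H286.FS83

open SimpleGraph Pool.Agent.H83.FS

section

variable {V T : Type} [DecidableEq T] {Y : SimpleGraph V} {col : T → Bool} {σ : T ≃ V}

theorem av_swap {u v x y : V} (h : Av Y u v x y) : Av Y v u x y :=
  Cn.mono (fun _ hx => ⟨hx.2, hx.1⟩) h

/-- from a vertex different from `u` and `v` one gets to a neighbour of `u` or `v` -/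
theorem first_visit {u v x : V} (w : Y.Walk x u) (hxu : x ≠ u) (hxv : x ≠ v) :
    ∃ w₁, Av Y u v x w₁ ∧ w₁ ≠ u ∧ w₁ ≠ v ∧ (Y.Adj u w₁ ∨ Y.Adj v w₁) := by
  induction w with
  | nil => exact absurd rfl hxu
  | @cons x y u h p ih =>
    by_cases hyu : y = u
    · subst hyu
      exact ⟨x, Cn.refl x, hxu, hxv, Or.inl h.symm⟩
    by_cases hyv : y = v
    · subst hyv
      exact ⟨x, Cn.refl x, hxu, hxv, Or.inr h.symm⟩
    obtain ⟨w₁, h1, h2, h3, h4⟩ := ih hyu hyv
    exact ⟨w₁, (Cn.single h ⟨hxu, hxv⟩ ⟨hyu, hyv⟩).trans h1, h2, h3, h4⟩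

theorem fst_symm (h3 : S_link) {b b' : T} (h : FSt Y col σ b b') : FSt Y col σ b' b := by
  obtain ⟨⟨hne, hcol, hlk⟩, hadj⟩ := h
  refine ⟨⟨hne.symm, hcol.symm, fun hl => hlk ?_⟩, hadj.symm⟩
  exact (h3 V T Y col).2.1 σ b' b hcol.symm hl

/-- a first step of a nontrivial walk -/
theorem first_step {P : V → Prop} {x y : V} (h : Cn Y P x y) (hne : x ≠ y) :
    ∃ z, Y.Adj x z ∧ P z ∧ Cn Y P x z := by
  unfold Cn at h
  rcases Relation.ReflTransGen.cases_head h with h1 | ⟨z, h1, _⟩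
  · exact absurd h1 hne
  · exact ⟨z, h1.1, h1.2.2, Relation.ReflTransGen.single h1⟩

theorem pc_ne {b : T} {s : V} (hs : pc col σ s = !(col b)) : s ≠ σ b := by
  rintro rfl
  simp [pc] at hs

theorem iaA_ne [DecidableEq V] (h1 : S_two) (h2 : S_claw1) (h3 : S_link) {b b' : T} {w s₁ s₂ : V}
    (hF : FSt Y col σ b b') (huw : Y.Adj (σ b) w) (hvw : Y.Adj (σ b') w) (hs : s₁ ≠ s₂)
    (hc1 : pc col σ s₁ = !(col b)) (hc2 : pc col σ s₂ = !(col b))
    (ha1 : Av Y (σ b) (σ b') s₁ w) (ha2 : Av Y (σ b) (σ b') s₂ w) : False := by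
  have hcol : col b = col b' := hF.1.2.1
  have huv : Y.Adj (σ b) (σ b') := hF.2
  -- a neighbour of `w`
  have hw3 : ∃ z, Y.Adj w z ∧ (z ≠ σ b ∧ z ≠ σ b') ∧ Av Y (σ b) (σ b') w z := by
    by_cases h : w = s₁
    · exact first_step ha2.symm (fun h' => hs (h.symm.trans h'))
    · exact first_step ha1.symm h
  obtain ⟨w₃, hww, ⟨hwu, hwv⟩, hav⟩ := hw3
  obtain ⟨τ, r1, r2, r3, r4⟩ := h1 V T Y col (fun x => x ≠ σ b ∧ x ≠ σ b') (!(col b)) σ s₁ s₂ w w₃
    ha1 (Cn.trans ha2 hav) hs hww.ne hc1 hc2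
  have tb : τ.symm (σ b) = b := by
    rw [r2 (σ b) (fun h => h.1 rfl), Equiv.symm_apply_apply]
  have tb' : τ.symm (σ b') = b' := by
    rw [r2 (σ b') (fun h => h.2 rfl), Equiv.symm_apply_apply]
  have nuw : σ b ≠ w := huw.ne
  have nvw : σ b' ≠ w := hvw.ne
  have nuv : σ b ≠ σ b' := huv.ne
  have pu : pc col τ (σ b) = col b := by unfold pc; rw [tb]
  have pv : pc col τ (σ b') = col b := by unfold pc; rw [tb', hcol]
  have m1 : Rch Y col τ (τ.trans (Equiv.swap (σ b) w)) := by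
    refine move huw ?_
    rw [pu, r3]
    cases col b <;> simp
  have m2 : Rch Y col (τ.trans (Equiv.swap (σ b) w))
      ((τ.trans (Equiv.swap (σ b) w)).trans (Equiv.swap (σ b') (σ b))) := by
    refine move huv.symm ?_
    rw [pc_move, pc_move, Equiv.swap_apply_left,
      Equiv.swap_apply_of_ne_of_ne nuv.symm nvw, pv, r3]
    cases col b <;> simp
  have e1 : ((τ.trans (Equiv.swap (σ b) w)).trans (Equiv.swap (σ b') (σ b))).symm w = b := by
    rw [move_symm_apply, move_symm_apply, Equiv.swap_apply_of_ne_of_ne nvw.symm nuw.symm,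
      Equiv.swap_apply_right, tb]
  have e2 : ((τ.trans (Equiv.swap (σ b) w)).trans (Equiv.swap (σ b') (σ b))).symm (σ b) = b' := by
    rw [move_symm_apply, move_symm_apply, Equiv.swap_apply_right,
      Equiv.swap_apply_of_ne_of_ne nuv.symm nvw, tb']
  have hl := h2 V T Y col ((τ.trans (Equiv.swap (σ b) w)).trans (Equiv.swap (σ b') (σ b)))
    w (σ b) (σ b') w₃ huw.symm hvw.symm hww nuv hwu.symm hwv.symm (by
      unfold pc
      rw [e1, e2, hcol]) (by
      have e3 : pc col ((τ.trans (Equiv.swap (σ b) w)).trans (Equiv.swap (σ b') (σ b))) w =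
        col b := by unfold pc; rw [e1]
      rw [e3, pc_move, pc_move, Equiv.swap_apply_left, Equiv.swap_apply_left, r3]) (by
      have e3 : pc col ((τ.trans (Equiv.swap (σ b) w)).trans (Equiv.swap (σ b') (σ b))) w =
        col b := by unfold pc; rw [e1]
      rw [e3, pc_move, pc_move, Equiv.swap_apply_of_ne_of_ne hwv hwu,
        Equiv.swap_apply_of_ne_of_ne hwu hww.ne', r4])
  rw [e1, e2] at hl
  exact hF.1.2.2 ((h3 V T Y col).1 _ σ b b' ((r1.trans m1).trans m2).symm hcol hl)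

end

theorem iaA (h0 : S_slide) (h1 : S_two) (h2 : S_claw1) (h3 : S_link) (h4 : S_notwo) : S_IaA := by
  intro V T _ _ _ Y col σ b b' hY hIa htwo
  obtain ⟨hF, s, w, w', hs, huw, hwv, hvw, hwu, hsw, hsw'⟩ := hIa
  have hcol : col b = col b' := hF.1.2.1
  have hF' := fst_symm h3 hF
  have all : ∀ s', pc col σ s' = !(col b) → Av Y (σ b) (σ b') s' w := by
    intro s' hs'
    by_contra hcon
    have hne : s ≠ s' := by
      rintro rfl
      exact hcon hsw
    have hs'u : s' ≠ σ b := pc_ne hs'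
    have hs'v : s' ≠ σ b' := pc_ne (hcol ▸ hs')
    obtain ⟨p⟩ := hY.preconnected s' (σ b)
    obtain ⟨w₁, k1, k2, k3, k4⟩ := first_visit p hs'u hs'v
    rcases k4 with k4 | k4
    · have hww : w ≠ w₁ := by
        rintro rfl
        exact hcon k1
      exact h4 V T Y col σ b b' s s' w w₁ hF hs hs' hne hww huw k4 hwv k3 hsw k1
    · have hww : w' ≠ w₁ := by
        rintro rfl
        exact hcon ((Cn.trans k1 hsw'.symm).trans hsw)
      exact h4 V T Y col σ b' b s s' w' w₁ hF' (hcol ▸ hs) (hcol ▸ hs') hne hww hvw k4 hwu k2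
        (av_swap hsw') (av_swap k1)
  obtain ⟨a, a', haa, hca, hca'⟩ := htwo
  have p1 : pc col σ (σ a) = !(col b) := by
    unfold pc
    rw [Equiv.symm_apply_apply, hca]
  have p2 : pc col σ (σ a') = !(col b) := by
    unfold pc
    rw [Equiv.symm_apply_apply, hca']
  have hsa : σ a ≠ σ a' := fun h => haa (σ.injective h)
  have con : Av Y (σ b) (σ b') w w' := Cn.trans hsw.symm hsw'
  refine ⟨w, w', hF, huw, hwv, hvw, hwu, con, all, ?_, ?_, ?_⟩
  · intro z hz hzv hzw
    by_contra hne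
    exact h4 V T Y col σ b b' (σ a) (σ a') w z hF p1 p2 hsa (Ne.symm hne) huw hz hwv hzv
      (all _ p1) (Cn.trans (all _ p2) hzw.symm)
  · intro z hz hzu hzw
    by_contra hne
    exact h4 V T Y col σ b' b (σ a) (σ a') w' z hF' (hcol ▸ p1) (hcol ▸ p2) hsa (Ne.symm hne) hvw
      hz hwu hzu (av_swap (Cn.trans (all _ p1) con)) (av_swap (Cn.trans (all _ p2) hzw.symm))
  · rintro rfl
    exact iaA_ne h1 h2 h3 hF huw hvw hsa p1 p2 (all _ p1) (all _ p2)

end Pool.Agent.H286.FS83
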